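import Pool.Agent.R223.Sem.Transfer

/-!
MP_dcbbce_an, Q1 (disproof). There is a bounded domain `Ω` in the plane such that for every
sufficiently large `q` the supremum `M_q(Ω)` of `F_{q,Ω}(H) = λ_H(Ω) T_H(Ω)^q` over the seminorms
of norm one is finite and is not attained.

`Ω` is the rectangle `(-1,1) × (-1/20,1/20)` minus a compact totally disconnected set which blocks
all horizontal lines `{y = c}`, `0 ≤ c ≤ 1/40`, but almost no line of slope `τ_k`, for a sequence
`τ_k → 0`.
-/

set_option autoImplicit false

namespace Pool.Agent.Results.MP_dcbbce_an.NoMaximizer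

open Pool.Agent.R223.SemDefs

/-- There is a bounded, open, connected set `Ω` in the Euclidean plane and a number `q₀` such that
for every `q ≥ q₀` the set of values of `F_{q,Ω}` on the seminorms of norm one is bounded above and
its supremum is not one of these values: no seminorm of norm one is a maximizer. -/
theorem result : ∃ Ω : Set (E 2), IsOpen Ω ∧ IsConnected Ω ∧ Bornology.IsBounded Ω ∧
    ∃ q₀ : ℝ, ∀ q : ℝ, q₀ ≤ q → BddAbove (Values q Ω) ∧ sSup (Values q Ω) ∉ Values q Ω :=
  Pool.Agent.R223.Sem.main

end Pool.Agent.Results.MP_dcbbce_an.NoMaximizer
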